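import Mathlib
import Pool.Agent.W757.QR.St
import Pool.Agent.W29.RQSNK
import Pool.Agent.H790R3.RB.TMUL
import Pool.Agent.H790R3.RB.TPQ
import Pool.Agent.H790R3.RB.TSP
import Pool.Agent.H713R5.QJ.TPBL
import Pool.Agent.H713R5.QJ.TSGL
import Pool.Agent.Helper540.Osgood

/-! RQ-APX (project of helper757 on MP_8f2e1c_an): a map with a trap is a limit of maps whose
non-attracted area is not larger than the area of its Julia set. -/

set_option autoImplicit false

open Topology Filter Metric Set Polynomial MeasureTheory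
open scoped OnePoint

namespace Pool.Agent.W409.RQAPX

open Pool.Agent.W757.QR Pool.Agent.H790R3.RB Pool.Agent.W29.RQSNK

/-! ### elementary facts -/

theorem fin_succ {d : ℕ} {x : CV d} {z : ℂ} (h : Fin' x z) : Fin' x (fx x z) := by
  intro j
  rw [← Function.iterate_succ_apply]
  exact h (j + 1)

theorem fin_iter {d : ℕ} {x : CV d} {z : ℂ} (h : Fin' x z) (n : ℕ) : Fin' x ((fx x)^[n] z) := by
  intro j
  rw [← Function.iterate_add_apply]
  exact h (j + n)

theorem it_diff {d : ℕ} {x : CV d} {z : ℂ} (h : Fin' x z) (n : ℕ) :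
    DifferentiableAt ℂ ((fx x)^[n]) z := fx_iter_diff x z n (fun j _ => h j)

theorem f_diff {d : ℕ} {x : CV d} {z : ℂ} (h : Fin' x z) : DifferentiableAt ℂ (fx x) z :=
  fx_diff x z (h 0)

theorem deriv_fx {d : ℕ} (x : CV d) (z : ℂ) (hz : (de x).eval z ≠ 0) :
    deriv (fx x) z = (wn (nu x) (de x)).eval z / (de x).eval z ^ 2 := by
  have h := ((nu x).hasDerivAt z).div ((de x).hasDerivAt z) hz
  have e : (wn (nu x) (de x)).eval z / (de x).eval z ^ 2 =
      ((derivative (nu x)).eval z * (de x).eval z - (nu x).eval z * (derivative (de x)).eval z) /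
      (de x).eval z ^ 2 := by
    simp [wn]
  rw [e]
  exact HasDerivAt.deriv h

/-- multiplier at the image point -/
theorem deriv_shift {d : ℕ} (x : CV d) (p : ℕ) (z : ℂ) (hf : Fin' x z)
    (hz : (fx x)^[p] z = z) :
    deriv ((fx x)^[p]) (fx x z) * deriv (fx x) z = deriv (fx x) z * deriv ((fx x)^[p]) z := by
  have h1 : (fx x)^[p + 1] = (fx x)^[p] ∘ (fx x) := Function.iterate_succ _ _
  have h2 : (fx x)^[p + 1] = (fx x) ∘ (fx x)^[p] := Function.iterate_succ' _ _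
  have e1 : deriv ((fx x)^[p + 1]) z = deriv ((fx x)^[p]) (fx x z) * deriv (fx x) z := by
    rw [h1]
    exact deriv_comp z (it_diff (fin_succ hf) p) (f_diff hf)
  have e2 : deriv ((fx x)^[p + 1]) z = deriv (fx x) z * deriv ((fx x)^[p]) z := by
    rw [h2]
    have := deriv_comp z (f_diff (fin_iter hf p)) (it_diff hf p)
    rw [this, hz]
  rw [← e1, e2]

theorem deriv_ne {d : ℕ} (x : CV d) (p : ℕ) (hp : 0 < p) (z : ℂ) (hf : Fin' x z)
    (hm : deriv ((fx x)^[p]) z ≠ 0) : deriv (fx x) z ≠ 0 := by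
  obtain ⟨q, rfl⟩ : ∃ q, p = q + 1 := ⟨p - 1, by omega⟩
  have h1 : (fx x)^[q + 1] = (fx x)^[q] ∘ (fx x) := Function.iterate_succ _ _
  have e1 : deriv ((fx x)^[q + 1]) z = deriv ((fx x)^[q]) (fx x z) * deriv (fx x) z := by
    rw [h1]
    exact deriv_comp z (it_diff (fin_succ hf) q) (f_diff hf)
  intro h
  rw [e1, h, mul_zero] at hm
  exact hm rfl

theorem deriv_pow' {d : ℕ} (x : CV d) (p : ℕ) (z : ℂ) (hf : Fin' x z)
    (hz : (fx x)^[p] z = z) (m : ℕ) :
    deriv ((fx x)^[p * m]) z = (deriv ((fx x)^[p]) z) ^ m := by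
  induction m with
  | zero =>
    rw [mul_zero, pow_zero]
    have : (fx x)^[0] = fun w => w := rfl
    rw [this]
    exact deriv_id z
  | succ m ih =>
    have h1 : (fx x)^[p * (m + 1)] = (fx x)^[p * m] ∘ (fx x)^[p] := by
      rw [mul_add, mul_one, Function.iterate_add]
    have h2 : DifferentiableAt ℂ ((fx x)^[p * m]) ((fx x)^[p] z) := by
      rw [hz]; exact it_diff hf _
    rw [h1, deriv_comp z h2 (it_diff hf _), hz, ih, pow_succ]

/-! ### finiteness of the set of periodic points -/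

theorem iter_poly {d : ℕ} (x : CV d) (n : ℕ) :
    ∃ A B : ℂ[X], ∀ z : ℂ, (hF x)^[n] (z, 1) = (A.eval z, B.eval z) := by
  induction n with
  | zero => exact ⟨X, 1, fun z => by simp⟩
  | succ n ih =>
    obtain ⟨A, B, h⟩ := ih
    refine ⟨∑ j : Fin (d + 1), C (x (0, j)) * (A ^ (j : ℕ) * B ^ (d - (j : ℕ))),
      ∑ j : Fin (d + 1), C (x (1, j)) * (A ^ (j : ℕ) * B ^ (d - (j : ℕ))), fun z => ?_⟩
    rw [Function.iterate_succ_apply', h]
    simp only [hF, eval_finsetSum, eval_mul, eval_pow, eval_C]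

theorem finite_fix {d : ℕ} (x : CV d) (hd : 2 ≤ d) (hx : ND x) (p : ℕ) (hp : 0 < p) :
    {z : ℂ | (sp x)^[p] (z : OnePoint ℂ) = (z : OnePoint ℂ)}.Finite := by
  obtain ⟨A, B, hAB⟩ := iter_poly x p
  obtain ⟨-, hit, hpr, -, -⟩ := SP d x (by omega) hx
  have hne1 : ∀ z : ℂ, ((z, 1) : ℂ × ℂ) ≠ 0 := fun z h => one_ne_zero (congrArg Prod.snd h)
  have hsub : {z : ℂ | (sp x)^[p] (z : OnePoint ℂ) = (z : OnePoint ℂ)} ⊆
      {z : ℂ | (A - X * B).eval z = 0} := by
    intro z hz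
    have hz' : (sp x)^[p] (z : OnePoint ℂ) = (z : OnePoint ℂ) := hz
    have e1 : (z : OnePoint ℂ) = pr (z, 1) := by
      have := (SP.pr_hc (z : OnePoint ℂ)).1
      rw [SP.hc_coe] at this
      exact this.symm
    rw [e1, hit _ (hne1 z)] at hz'
    have h2 := (hpr _ _ (hx.iter_ne p (hne1 z)) (hne1 z)).1 hz'
    rw [hAB z] at h2
    simp only [cr, mul_one] at h2
    show (A - X * B).eval z = 0
    rw [eval_sub, eval_mul, eval_X]
    linear_combination h2
  by_cases h0 : A - X * B = 0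
  · exfalso
    have hA : A = X * B := sub_eq_zero.1 h0
    have hB : ∀ z, B.eval z ≠ 0 := by
      intro z hz
      have h1 : A.eval z = 0 := by rw [hA, eval_mul, hz, mul_zero]
      have h2 := hx.iter_ne p (hne1 z)
      apply h2
      rw [hAB z, hz, h1]
      rfl
    have hBd : B.degree = 0 := by
      by_contra hcon
      have h1 : B.degree ≠ 0 := hcon
      obtain ⟨w, hw⟩ := IsAlgClosed.exists_root B h1
      exact hB w hw
    obtain ⟨c, hc⟩ : ∃ c : ℂ, B = C c := ⟨_, eq_C_of_degree_eq_zero hBd⟩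
    have hD : 2 ≤ d ^ p := by
      calc 2 ≤ d := hd
        _ = d ^ 1 := (pow_one _).symm
        _ ≤ d ^ p := Nat.pow_le_pow_right (by omega) hp
    have hval : ∀ ε : ℂ, ε ≠ 0 → (hF x)^[p] (1, ε) = (c * ε ^ (d ^ p - 1), c * ε ^ (d ^ p)) := by
      intro ε hε
      have e1 : ((1, ε) : ℂ × ℂ) = ε • ((ε⁻¹, 1) : ℂ × ℂ) := by
        apply Prod.ext
        · simp [hε]
        · simp
      rw [e1, hF_iter_smul, hAB, hA, hc]
      apply Prod.ext
      · simp only [eval_mul, eval_X, eval_C, Prod.smul_mk, smul_eq_mul]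
        have : ε ^ (d ^ p) = ε ^ (d ^ p - 1) * ε := by
          rw [← pow_succ]; congr 1; omega
        rw [this]
        field_simp
      · simp only [eval_C, Prod.smul_mk, smul_eq_mul]
        ring
    have hcont : Continuous (fun ε : ℂ => (hF x)^[p] (1, ε)) := by
      have h1 := hF_iter_continuous d p
      exact h1.comp (continuous_const.prodMk (continuous_const.prodMk continuous_id))
    have hcont2 : Continuous (fun ε : ℂ => ((c * ε ^ (d ^ p - 1), c * ε ^ (d ^ p)) : ℂ × ℂ)) := by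
      fun_prop
    have heq : (fun ε : ℂ => (hF x)^[p] (1, ε)) =
        fun ε : ℂ => ((c * ε ^ (d ^ p - 1), c * ε ^ (d ^ p)) : ℂ × ℂ) := by
      apply Continuous.ext_on (s := {(0 : ℂ)}ᶜ) (dense_compl_singleton 0) hcont hcont2
      intro ε hε
      exact hval ε hε
    have h1 : (hF x)^[p] (1, 0) = (c * (0 : ℂ) ^ (d ^ p - 1), c * (0 : ℂ) ^ (d ^ p)) :=
      congrFun heq 0
    rw [zero_pow (by omega), zero_pow (by omega), mul_zero] at h1
    have h2 : ((1, 0) : ℂ × ℂ) ≠ 0 := fun h => one_ne_zero (congrArg Prod.fst h)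
    exact hx.iter_ne p h2 h1
  · refine ((A - X * B).roots.toFinset.finite_toSet).subset (hsub.trans ?_)
    intro z hz
    rw [Finset.mem_coe, Multiset.mem_toFinset, mem_roots h0]
    exact hz

/-! ### neutral periodic points are not attracted -/

theorem sink_mul {d : ℕ} (x : CV d) (hd : 2 ≤ d) (hx : ND x) (a : ℂ) (hf : Fin' x a) (n : ℕ)
    (hs : Sink (sp x) n (a : OnePoint ℂ)) : ‖deriv ((fx x)^[n]) a‖ < 1 := by
  have hsp := SP d x (by omega) hx
  obtain ⟨-, hit, hpr, -, -⟩ := hsp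
  have hne1 : ∀ z : ℂ, ((z, 1) : ℂ × ℂ) ≠ 0 := fun z h => one_ne_zero (congrArg Prod.snd h)
  set β : Fin 1 → Unit → ℂ := fun _ _ => a with hβ
  have hch : ∀ z, ch β (some 0) () z = (a + z, 1) := fun z => rfl
  have hpr0 : pr (ch β (some 0) () 0) = (a : OnePoint ℂ) := by
    rw [hch, add_zero]
    exact (SP.pr_hc (a : OnePoint ℂ)).1
  have h1 := MUL SP d x n 1 β (some 0) hd hx (by rw [hpr0]; exact hs)
  have h2 : (fun z => loc β (some 0) () ((hF x)^[n] (ch β (some 0) () z))) =ᶠ[𝓝 0]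
      fun z => (fx x)^[n] (a + z) - a := by
    have h3 : ∀ᶠ z in 𝓝 (0 : ℂ), ∀ j ∈ Finset.range n, (de x).eval ((fx x)^[j] (a + z)) ≠ 0 := by
      rw [Finset.eventually_all]
      intro j _
      have hc : ContinuousAt (fun z => (de x).eval ((fx x)^[j] (a + z))) 0 := by
        have h4 : ContinuousAt ((fx x)^[j]) (a + 0) := by
          rw [add_zero]; exact (it_diff hf j).continuousAt
        have h5 : ContinuousAt (fun z : ℂ => a + z) 0 := by fun_prop
        exact (de x).continuous.continuousAt.comp (ContinuousAt.comp h4 h5)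
      exact hc.eventually_ne (by rw [add_zero]; exact hf j)
    filter_upwards [h3] with z hz
    have h4 := sp_iter x (a + z) n (fun j hj => hz j (Finset.mem_range.2 hj))
    have h5 : pr ((hF x)^[n] (a + z, 1)) = (((fx x)^[n] (a + z) : ℂ) : OnePoint ℂ) := by
      rw [← hit _ (hne1 _), ← h4]
      congr 1
      exact (SP.pr_hc ((a + z : ℂ) : OnePoint ℂ)).1
    rw [hch]
    show ((hF x)^[n] (a + z, 1)).1 / ((hF x)^[n] (a + z, 1)).2 - a = _
    by_cases h6 : ((hF x)^[n] (a + z, 1)).2 = 0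
    · rw [SP.pr_zero h6] at h5
      exact absurd h5 (OnePoint.infty_ne_coe _)
    · rw [SP.pr_ne h6, OnePoint.coe_eq_coe] at h5
      rw [h5]
  rw [h2.deriv_eq] at h1
  have h3 : HasDerivAt (fun z => (fx x)^[n] (a + z) - a) (deriv ((fx x)^[n]) a) 0 := by
    have h4 : HasDerivAt ((fx x)^[n]) (deriv ((fx x)^[n]) a) (a + 0) := by
      rw [add_zero]; exact (it_diff hf n).hasDerivAt
    have h5 : HasDerivAt (fun z : ℂ => a + z) 1 0 := (hasDerivAt_id (0 : ℂ)).const_add a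
    have h6 := (HasDerivAt.comp (0 : ℂ) h4 h5).sub_const a
    rw [mul_one] at h6
    exact h6
  rw [h3.deriv] at h1
  exact h1

theorem not_attd {d : ℕ} (x : CV d) (hd : 2 ≤ d) (hx : ND x) (p : ℕ) (hp : 0 < p) (a : ℂ)
    (hf : Fin' x a) (ha : (fx x)^[p] a = a) (hm : ‖deriv ((fx x)^[p]) a‖ = 1) :
    ¬ Attd (sp x) (a : OnePoint ℂ) := by
  rintro ⟨n, b, hs, hlim⟩
  have hn : 0 < n := hs.1
  have hspa : (sp x)^[p] (a : OnePoint ℂ) = (a : OnePoint ℂ) := by
    rw [sp_iter x a p (fun j _ => hf j), ha]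
  have hab : (a : OnePoint ℂ) = b := by
    have h1 : Tendsto (fun k : ℕ => (sp x)^[n * (p * k)] (a : OnePoint ℂ)) atTop (𝓝 b) := by
      have h2 : Tendsto (fun k : ℕ => p * k) atTop atTop :=
        tendsto_id.const_mul_atTop' hp
      exact hlim.comp h2
    have h3 : (fun k : ℕ => (sp x)^[n * (p * k)] (a : OnePoint ℂ)) = fun _ => (a : OnePoint ℂ) := by
      funext k
      have : n * (p * k) = p * (n * k) := by ring
      rw [this, Function.iterate_mul]
      exact Function.iterate_fixed hspa _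
    rw [h3] at h1
    exact tendsto_nhds_unique tendsto_const_nhds h1
  rw [← hab] at hs
  have h1 := sink_mul x hd hx a hf n hs
  have hfa : (fx x)^[n] a = a := by
    have h2 := hs.2.1
    rw [sp_iter x a n (fun j _ => hf j), OnePoint.coe_eq_coe] at h2
    exact h2
  have h2 := deriv_pow' x n a hf hfa p
  have h3 := deriv_pow' x p a hf ha n
  rw [mul_comm] at h3
  have h4 : ‖deriv ((fx x)^[n]) a‖ ^ p = 1 := by
    rw [← norm_pow, ← h2, h3, norm_pow, hm, one_pow]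
  have h5 : ‖deriv ((fx x)^[n]) a‖ ^ p < 1 := pow_lt_one₀ (norm_nonneg _) h1 (by omega)
  linarith

/-! ### backward invariance of attraction -/

theorem attd_back {f : OnePoint ℂ → OnePoint ℂ} (hf : Continuous f) {z : OnePoint ℂ}
    (h : Attd f (f z)) : Attd f z := by
  obtain ⟨n, a, ⟨hn, hfix, U, hU, hUV⟩, hlim⟩ := h
  have hfa : f (f^[n - 1] a) = a := by
    have h1 := Function.iterate_succ_apply' f (n - 1) a
    have : (n - 1).succ = n := by omega
    rw [← h1, this, hfix]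
  have key : ∀ (k : ℕ) (w : OnePoint ℂ), f^[n * (k + 1)] w = f^[n - 1] (f^[n * k] (f w)) := by
    intro k w
    rw [← Function.iterate_succ_apply, ← Function.iterate_add_apply]
    congr 1
    have : n * (k + 1) = n * k + n := by ring
    omega
  refine ⟨n, f^[n - 1] a, ⟨hn, ?_, f ⁻¹' U, ?_, ?_⟩, ?_⟩
  · rw [← Function.iterate_add_apply, add_comm, Function.iterate_add_apply, hfix]
  · apply hf.continuousAt.preimage_mem_nhds
    rw [hfa]
    exact hU
  · intro V hV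
    have h1 : (f^[n - 1]) ⁻¹' V ∈ 𝓝 a := (hf.iterate (n - 1)).continuousAt.preimage_mem_nhds hV
    have h2 := hUV _ h1
    rw [eventually_atTop] at h2 ⊢
    obtain ⟨k₀, hk₀⟩ := h2
    refine ⟨k₀ + 1, fun k hk w hw => ?_⟩
    obtain ⟨m, rfl⟩ : ∃ m, k = m + 1 := ⟨k - 1, by omega⟩
    rw [key]
    exact hk₀ m (by omega) (f w) hw
  · rw [← tendsto_add_atTop_iff_nat 1]
    have h1 : (fun k : ℕ => f^[n * (k + 1)] z) = fun k => f^[n - 1] (f^[n * k] (f z)) :=
      funext fun k => key k z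
    rw [h1]
    exact ((hf.iterate (n - 1)).tendsto a).comp hlim

/-! ### the indifferent cycles -/

/-- indifferent periodic points of period at most `j` -/
def Ind {d : ℕ} (x : CV d) (j : ℕ) : Set ℂ :=
  {a | ∃ p : ℕ, 0 < p ∧ p ≤ j ∧ Fin' x a ∧ (fx x)^[p] a = a ∧ ‖deriv ((fx x)^[p]) a‖ = 1}

theorem ind_finite {d : ℕ} (x : CV d) (hd : 2 ≤ d) (hx : ND x) (j : ℕ) : (Ind x j).Finite := by
  have h : Ind x j ⊆ ⋃ p ∈ Finset.Icc 1 j,
      {z : ℂ | (sp x)^[p] (z : OnePoint ℂ) = (z : OnePoint ℂ)} := by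
    rintro a ⟨p, hp, hpj, hf, ha, -⟩
    refine mem_biUnion (Finset.mem_coe.2 (Finset.mem_Icc.2 ⟨hp, hpj⟩)) ?_
    show (sp x)^[p] (a : OnePoint ℂ) = (a : OnePoint ℂ)
    rw [sp_iter x a p (fun j _ => hf j), ha]
  refine Set.Finite.subset ?_ h
  refine Set.Finite.biUnion (Finset.finite_toSet _) ?_
  intro p hp
  exact finite_fix x hd hx p (Finset.mem_Icc.1 hp).1

theorem ind_cyc {d : ℕ} (x : CV d) (hd : 2 ≤ d) (hx : ND x) (j : ℕ) :
    Cyc (nu x) (de x) (ind_finite x hd hx j).toFinset := by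
  refine ⟨?_, ?_⟩
  · intro z hz
    rw [Set.Finite.mem_toFinset] at hz
    obtain ⟨p, hp, hpj, hf, ha, hm⟩ := hz
    have hd1 : deriv (fx x) z ≠ 0 := by
      apply deriv_ne x p hp z hf
      intro h0
      rw [h0, norm_zero] at hm
      exact zero_ne_one hm
    refine ⟨hf 0, ?_, ?_⟩
    · intro h0
      rw [deriv_fx x z (hf 0), h0, zero_div] at hd1
      exact hd1 rfl
    · rw [Set.Finite.mem_toFinset]
      refine ⟨p, hp, hpj, fin_succ hf, ?_, ?_⟩
      · show (fx x)^[p] (fx x z) = fx x z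
        rw [← Function.iterate_succ_apply, Function.iterate_succ_apply', ha]
      · have h := deriv_shift x p z hf ha
        have h' : deriv ((fx x)^[p]) (fx x z) = deriv ((fx x)^[p]) z := by
          have : (deriv ((fx x)^[p]) (fx x z) - deriv ((fx x)^[p]) z) * deriv (fx x) z = 0 := by
            rw [sub_mul, h]
            ring
          rcases mul_eq_zero.1 this with h3 | h3
          · exact sub_eq_zero.1 h3
          · exact absurd h3 hd1
        show ‖deriv ((fx x)^[p]) (fx x z)‖ = 1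
        rw [h', hm]
  · intro z hz z' hz' heq
    rw [Set.Finite.mem_toFinset] at hz hz'
    obtain ⟨p, hp, hpj, hf, ha, hm⟩ := hz
    obtain ⟨p', hp', hpj', hf', ha', hm'⟩ := hz'
    have heq' : fx x z = fx x z' := heq
    have a1 : (fx x)^[p * p'] z = z := by
      rw [Function.iterate_mul]
      exact Function.iterate_fixed ha p'
    have a2 : (fx x)^[p * p'] z' = z' := by
      rw [mul_comm, Function.iterate_mul]
      exact Function.iterate_fixed ha' p
    obtain ⟨q, hq⟩ : ∃ q, p * p' = q + 1 := ⟨p * p' - 1, by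
      have := Nat.mul_pos hp hp'
      omega⟩
    rw [hq] at a1 a2
    rw [← a1, ← a2, Function.iterate_succ_apply, Function.iterate_succ_apply, heq']

theorem ind_unit {d : ℕ} (x : CV d) (hd : 2 ≤ d) (hx : ND x) (j : ℕ) :
    Indf (nu x) (de x) (ind_finite x hd hx j).toFinset := by
  intro z hz p hp hpz
  rw [Set.Finite.mem_toFinset] at hz
  obtain ⟨q, hq, hqj, hf, ha, hm⟩ := hz
  have hpz' : (fx x)^[p] z = z := hpz
  have h1 := deriv_pow' x p z hf hpz' q
  have h3 := deriv_pow' x q z hf ha p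
  rw [mul_comm] at h3
  have h4 : ‖deriv ((fx x)^[p]) z‖ ^ q = 1 := by
    rw [← norm_pow, ← h1, h3, norm_pow, hm, one_pow]
  exact (pow_eq_one_iff_of_nonneg (norm_nonneg _) (by omega)).1 h4

theorem sieg_mul {d : ℕ} (x : CV d) (p : ℕ) (r : ℝ) (h : ℂ → ℂ) (ρ : ℂ) (hr : 0 < r)
    (_hρ : ‖ρ‖ = 1)
    (hd : DifferentiableOn ℂ h (ball 0 r)) (hi : InjOn h (ball 0 r))
    (hc : ∀ w ∈ ball (0 : ℂ) r, Fin' x (h w) ∧ (fx x)^[p] (h w) = h (ρ * w)) :
    (fx x)^[p] (h 0) = h 0 ∧ deriv ((fx x)^[p]) (h 0) = ρ := by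
  have h0 : (0 : ℂ) ∈ ball (0 : ℂ) r := mem_ball_self hr
  refine ⟨by rw [(hc 0 h0).2, mul_zero], ?_⟩
  have hda : DifferentiableAt ℂ h 0 := hd.differentiableAt (isOpen_ball.mem_nhds h0)
  have hne : deriv h 0 ≠ 0 := Pool.Agent.Helper540.deriv_ne_zero_of_injOn isOpen_ball hd hi h0
  have e1 : HasDerivAt (fun w => (fx x)^[p] (h w)) (deriv ((fx x)^[p]) (h 0) * deriv h 0) 0 :=
    HasDerivAt.comp (0 : ℂ) (it_diff (hc 0 h0).1 p).hasDerivAt hda.hasDerivAt
  have e2 : HasDerivAt (fun w : ℂ => h (ρ * w)) (deriv h 0 * (ρ * 1)) 0 := by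
    have h3 : HasDerivAt (fun w : ℂ => ρ * w) (ρ * 1) 0 := (hasDerivAt_id (0 : ℂ)).const_mul ρ
    have h4 : HasDerivAt h (deriv h 0) (ρ * 0) := by
      rw [mul_zero]
      exact hda.hasDerivAt
    exact HasDerivAt.comp (0 : ℂ) h4 h3
  have e3 : (fun w : ℂ => h (ρ * w)) =ᶠ[𝓝 0] (fun w => (fx x)^[p] (h w)) := by
    filter_upwards [isOpen_ball.mem_nhds h0] with w hw
    exact (hc w hw).2.symm
  have e4 := (e1.congr_of_eventuallyEq e3).unique e2
  have e5 : (deriv ((fx x)^[p]) (h 0) - ρ) * deriv h 0 = 0 := by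
    rw [sub_mul, e4]
    ring
  rcases mul_eq_zero.1 e5 with h6 | h6
  · exact sub_eq_zero.1 h6
  · exact absurd h6 hne

/-! ### the points which become attracted -/

/-- points which become attracted for the perturbation of level `j` -/
def GG {d : ℕ} (x : CV d) (j : ℕ) : Set ℂ :=
  {u | Attd (sp x) (u : OnePoint ℂ) ∨
    (∃ (p : ℕ) (a : ℂ), p ≤ j ∧ 0 < p ∧ Fin' x a ∧ (fx x)^[p] a = a ∧
      deriv ((fx x)^[p]) a = 1 ∧ Fin' x u ∧
      Tendsto (fun i : ℕ => (fx x)^[p * i] u) atTop (𝓝 a) ∧ ∀ i : ℕ, (fx x)^[p * i] u ≠ a) ∨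
    (∃ (n p : ℕ) (r : ℝ) (h : ℂ → ℂ) (ρ : ℂ), p ≤ j ∧ 0 < p ∧ 0 < r ∧ ‖ρ‖ = 1 ∧
      (∀ m : ℕ, 0 < m → ρ ^ m ≠ 1) ∧
      DifferentiableOn ℂ h (ball 0 r) ∧ InjOn h (ball 0 r) ∧
      (∀ w ∈ ball (0 : ℂ) r, Fin' x (h w) ∧ (fx x)^[p] (h w) = h (ρ * w)) ∧ Fin' x u ∧
      (fx x)^[n] u ∈ h '' ball 0 r)}

theorem gg_mono {d : ℕ} (x : CV d) : Monotone (GG x) := by
  intro i j hij u hu
  rcases hu with h | ⟨p, a, hp, h⟩ | ⟨n, p, r, h, ρ, hp, h'⟩
  · exact Or.inl h
  · exact Or.inr (Or.inl ⟨p, a, hp.trans hij, h⟩)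
  · exact Or.inr (Or.inr ⟨n, p, r, h, ρ, hp.trans hij, h'⟩)

theorem gg_union {d : ℕ} (x : CV d) (u : ℂ)
    (h : Attd (sp x) (u : OnePoint ℂ) ∨ Para x u ∨ Sieg x u) : ∃ j, u ∈ GG x j := by
  rcases h with h | ⟨p, a, h⟩ | ⟨n, p, r, h, ρ, h'⟩
  · exact ⟨0, Or.inl h⟩
  · exact ⟨p, Or.inr (Or.inl ⟨p, a, le_rfl, h⟩)⟩
  · exact ⟨p, Or.inr (Or.inr ⟨n, p, r, h, ρ, le_rfl, h'⟩)⟩

theorem iter_cyc {d : ℕ} (x x' : CV d) (Z : Finset ℂ) (hZ : ∀ z ∈ Z, fx x z ∈ Z) (y : ℂ → ℂ)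
    (h : ∀ z ∈ Z, fx x' (y z) = y (fx x z)) (i : ℕ) :
    ∀ z ∈ Z, (fx x)^[i] z ∈ Z ∧ (fx x')^[i] (y z) = y ((fx x)^[i] z) := by
  induction i with
  | zero => exact fun z hz => ⟨hz, rfl⟩
  | succ i ih =>
    intro z hz
    obtain ⟨h1, h2⟩ := ih z hz
    rw [Function.iterate_succ_apply', Function.iterate_succ_apply', h2]
    exact ⟨hZ _ h1, h _ h1⟩

theorem local_good (hSNK : StSNK) (hOPA : StOPA) (hAPP : StAPP) (hAPS : StAPS)
    {d : ℕ} (x : CV d) (hd : 2 ≤ d) (hx : ND x) (j : ℕ) (t₀ C₀ : ℝ) (X : ℝ → CV d)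
    (y : ℝ → ℂ → ℂ) (kk : ℂ → ℕ → ℕ) (ht₀ : 0 < t₀) (hC₀ : 0 < C₀)
    (hkk : ∀ z ∈ (ind_finite x hd hx j).toFinset, ∀ p : ℕ, 0 < p → (fx x)^[p] z = z →
      0 < kk z p)
    (hX : ∀ t : ℝ, 0 ≤ t → t ≤ t₀ → ND (X t) ∧ ‖X t - x‖ ≤ C₀ * t ∧
      ∀ z ∈ (ind_finite x hd hx j).toFinset, ‖y t z - z‖ ≤ C₀ * t ∧ Fin' (X t) (y t z) ∧
        fx (X t) (y t z) = y t (fx x z) ∧
        ∀ p : ℕ, 0 < p → (fx x)^[p] z = z →
          deriv ((fx (X t))^[p]) (y t z) = ((1 - t : ℝ) : ℂ) ^ (kk z p) * deriv ((fx x)^[p]) z)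
    (u : ℂ) (hu : u ∈ GG x j) :
    ∃ δ t₁ : ℝ, 0 < δ ∧ 0 < t₁ ∧ ∀ t : ℝ, 0 < t → t < t₁ → ∀ z' ∈ ball u δ,
      Attd (sp (X t)) (z' : OnePoint ℂ) := by
  have hZ : ∀ z ∈ (ind_finite x hd hx j).toFinset, fx x z ∈ (ind_finite x hd hx j).toFinset :=
    fun z hz => ((ind_cyc x hd hx j).1 z hz).2.2
  have hPC : ∀ (p : ℕ) (a ρ : ℂ), 0 < p → p ≤ j → Fin' x a → (fx x)^[p] a = a →
      deriv ((fx x)^[p]) a = ρ → ‖ρ‖ = 1 → PC x p a ρ X (fun t => y t a) (kk a p) t₀ C₀ := by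
    intro p a ρ hp hpj hf ha hm hρ
    have haZ : a ∈ (ind_finite x hd hx j).toFinset := by
      rw [Set.Finite.mem_toFinset]
      exact ⟨p, hp, hpj, hf, ha, by rw [hm, hρ]⟩
    refine ⟨hd, hx, ht₀, hC₀, hkk a haZ p hp ha, hp, hf, ha, hm, fun t h0 h1 => (hX t h0 h1).1,
      fun t h0 h1 => (hX t h0 h1).2.1, fun t h0 h1 => ((hX t h0 h1).2.2 a haZ).2.1,
      fun t h0 h1 => ((hX t h0 h1).2.2 a haZ).1, fun t h0 h1 => ?_, fun t h0 h1 => ?_⟩
    · have h := (iter_cyc x (X t) _ hZ (y t)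
        (fun z hz => ((hX t h0 h1).2.2 z hz).2.2.1) p a haZ).2
      show (fx (X t))^[p] (y t a) = y t a
      rw [h, ha]
    · have h := ((hX t h0 h1).2.2 a haZ).2.2.2 p hp ha
      rw [hm] at h
      exact h
  rcases hu with h | ⟨p, a, hpj, hp, hf, ha, hm, hfu, hlim, hne⟩ |
      ⟨n, p, r, h, ρ, hpj, hp, hr, hρ, hirr, hdh, hi, hc, hfu, hn⟩
  · obtain ⟨σ, U, hσ, hU, H⟩ := hOPA d x u hd hx h
    have hU' : (fun z : ℂ => (z : OnePoint ℂ)) ⁻¹' U ∈ 𝓝 u :=
      OnePoint.continuous_coe.continuousAt.preimage_mem_nhds hU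
    obtain ⟨δ, hδ, hδU⟩ := Metric.mem_nhds_iff.1 hU'
    refine ⟨δ, min t₀ (σ / C₀), hδ, lt_min ht₀ (by positivity), ?_⟩
    intro t h0 h1 z' hz'
    have h3 : t ≤ t₀ := (h1.trans_le (min_le_left _ _)).le
    have h4 : t < σ / C₀ := h1.trans_le (min_le_right _ _)
    rw [lt_div_iff₀ hC₀] at h4
    have h5 := (hX t h0.le h3).2.1
    exact (H (X t) (by linarith)).2 _ (hδU hz')
  · exact hAPP hSNK Pool.Agent.H713R5.QJ.pbl_holds d x p a X (fun t => y t a) (kk a p) t₀ C₀ u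
      (hPC p a 1 hp hpj hf ha hm norm_one) hfu hlim hne
  · obtain ⟨b1, b2⟩ := sieg_mul x p r h ρ hr hρ hdh hi hc
    exact hAPS hSNK Pool.Agent.H713R5.QJ.sgl_holds d x n p ρ r h X (fun t => y t (h 0))
      (kk (h 0) p) t₀ C₀ u (hPC p (h 0) ρ hp hpj (hc 0 (mem_ball_self hr)).1 b1 b2 hρ) hr hρ hirr
      hdh hi hc hfu hn

/-- compact sets of attracted points are stable -/
theorem opa_compact (hOPA : StOPA) {d : ℕ} (x : CV d) (hd : 2 ≤ d) (hx : ND x)
    (A : Set (OnePoint ℂ)) (hA : IsCompact A) (h : ∀ z ∈ A, Attd (sp x) z) :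
    ∃ σ : ℝ, 0 < σ ∧ ∀ x' : CV d, ‖x' - x‖ < σ → ∀ z ∈ A, Attd (sp x') z := by
  refine hA.induction_on (p := fun s => ∃ σ : ℝ, 0 < σ ∧ ∀ x' : CV d, ‖x' - x‖ < σ →
    ∀ z ∈ s, Attd (sp x') z) ?_ ?_ ?_ ?_
  · exact ⟨1, one_pos, fun _ _ z hz => absurd hz (notMem_empty z)⟩
  · rintro s t hst ⟨σ, hσ, H⟩
    exact ⟨σ, hσ, fun x' hx' z hz => H x' hx' z (hst hz)⟩
  · rintro s t ⟨σ, hσ, H⟩ ⟨σ', hσ', H'⟩
    refine ⟨min σ σ', lt_min hσ hσ', fun x' hx' z hz => ?_⟩
    rcases hz with hz | hz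
    · exact H x' (hx'.trans_le (min_le_left _ _)) z hz
    · exact H' x' (hx'.trans_le (min_le_right _ _)) z hz
  · intro z hz
    obtain ⟨σ, U, hσ, hU, H⟩ := hOPA d x z hd hx (h z hz)
    exact ⟨U, mem_nhdsWithin_of_mem_nhds hU, σ, hσ, fun x' hx' w hw => (H x' hx').2 w hw⟩

theorem task (hSNK : StSNK) (hOPA : StOPA) (hAF : StAF) (hPF : StPF) (hINJ : StINJ)
    (hSURL : StSURL) (hSYL : StSYL) (hCURVE : StCURVE) (hAPP : StAPP) (hAPS : StAPS) :
    StAPX := by
  intro d x K hd hx hTrap hinf hKc ε hε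
  classical
  have hPQ := (PQ SP d (by omega)).1 x hx
  have hRM : RM d (nu x) (de x) := ⟨hd, hPQ.1, hPQ.2.1⟩
  obtain ⟨hcont, -, -, -, -⟩ := SP d x (by omega) hx
  obtain ⟨hKcomp, hKint⟩ := hTrap
  have hKfin : volume K ≠ ⊤ := hKcomp.measure_lt_top.ne
  have hKmeas : MeasurableSet K := hKcomp.measurableSet
  set B0 : ENNReal := volume {z : ℂ | ¬ (Attd (sp x) (z : OnePoint ℂ) ∨ Para x z ∨ Sieg x z)}
    with hB0
  have hB0fin : B0 ≠ ⊤ := by
    refine ((measure_mono ?_).trans_lt (lt_top_iff_ne_top.2 hKfin)).ne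
    intro z hz
    by_contra hzK
    exact hz (Or.inl (hKc z hzK))
  set e : ENNReal := ENNReal.ofReal (ε / 2) with he
  have he0 : 0 < e := ENNReal.ofReal_pos.2 (by linarith)
  have hefin : e ≠ ⊤ := ENNReal.ofReal_ne_top
  have hee : e + e = ENNReal.ofReal ε := by
    rw [he, ← ENNReal.ofReal_add (by linarith) (by linarith)]
    congr 1
    ring
  -- the increasing union
  have hmono : Monotone (fun j : ℕ => K ∩ GG x j) := by
    intro i j hij
    exact inter_subset_inter_right _ (gg_mono x hij)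
  have hsup : volume K ≤ (⨆ j : ℕ, volume (K ∩ GG x j)) + B0 := by
    rw [← hmono.measure_iUnion]
    have hsub : K ⊆ (⋃ j : ℕ, K ∩ GG x j) ∪
        {z : ℂ | ¬ (Attd (sp x) (z : OnePoint ℂ) ∨ Para x z ∨ Sieg x z)} := by
      intro z hz
      by_cases h : Attd (sp x) (z : OnePoint ℂ) ∨ Para x z ∨ Sieg x z
      · obtain ⟨j, hj⟩ := gg_union x z h
        exact Or.inl (mem_iUnion.2 ⟨j, hz, hj⟩)
      · exact Or.inr h
    exact (measure_mono hsub).trans (measure_union_le _ _)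
  obtain ⟨j, hj⟩ : ∃ j : ℕ, volume K ≤ volume (K ∩ GG x j) + B0 + e := by
    by_contra hcon
    push Not at hcon
    have h1 : (⨆ j : ℕ, (volume (K ∩ GG x j) + (B0 + e))) ≤ volume K :=
      iSup_le fun j => by rw [← add_assoc]; exact (hcon j).le
    rw [← ENNReal.iSup_add] at h1
    have h2 := h1.trans hsup
    have hsfin : (⨆ j : ℕ, volume (K ∩ GG x j)) + B0 ≠ ⊤ := by
      refine ENNReal.add_ne_top.2 ⟨?_, hB0fin⟩
      refine ne_top_of_le_ne_top hKfin (iSup_le fun j => measure_mono inter_subset_left)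
    rw [← add_assoc] at h2
    have h3 : (⨆ j : ℕ, volume (K ∩ GG x j)) + B0 + e ≤
        (⨆ j : ℕ, volume (K ∩ GG x j)) + B0 + 0 := by rwa [add_zero]
    have h4 := (ENNReal.add_le_add_iff_left hsfin).1 h3
    exact absurd h4 (not_le.2 he0)
  -- the curve
  have hcyc := ind_cyc x hd hx j
  have hunit := ind_unit x hd hx j
  have hZK : ∀ z ∈ (ind_finite x hd hx j).toFinset, z ∈ K := by
    intro z hz
    rw [Set.Finite.mem_toFinset] at hz
    obtain ⟨p, hp, hpj, hf, ha, hm⟩ := hz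
    by_contra hzK
    exact not_attd x hd hx p hp z hf ha hm (hKc z hzK)
  obtain ⟨t₀, C₀, X, y, kk, ht₀, hC₀, hkk, hX⟩ := hCURVE hSYL d x
    (ind_finite x hd hx j).toFinset hd hx hcyc hunit
    (hSURL hAF hPF hINJ d (nu x) (de x) (ind_finite x hd hx j).toFinset K hRM hcyc
      ⟨hKcomp, hKint⟩ hZK hunit)
  have hloc := local_good hSNK hOPA hAPP hAPS x hd hx j t₀ C₀ X y kk ht₀ hC₀ hkk hX
  choose! δ t₁ hδ ht₁ hgood using hloc
  set O : Set ℂ := ⋃ u ∈ GG x j, ball u (δ u) with hO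
  have hOo : IsOpen O := isOpen_biUnion (fun u _ => isOpen_ball)
  have hGO : GG x j ⊆ O := fun u hu => mem_biUnion hu (mem_ball_self (hδ u hu))
  have hKO : volume K ≤ volume (K ∩ O) + B0 + e :=
    hj.trans (add_le_add (add_le_add (measure_mono (inter_subset_inter_right _ hGO)) le_rfl)
      le_rfl)
  have hKOfin : volume (K ∩ O) ≠ ⊤ :=
    ((measure_mono inter_subset_left).trans_lt (lt_top_iff_ne_top.2 hKfin)).ne
  obtain ⟨C, hCsub, hCc, hCv⟩ := (hKmeas.inter hOo.measurableSet).exists_isCompact_lt_add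
    (μ := volume) hKOfin he0.ne'
  have hKC : volume K ≤ volume C + (B0 + ENNReal.ofReal ε) := by
    rw [← hee]
    calc volume K ≤ volume (K ∩ O) + B0 + e := hKO
      _ ≤ (volume C + e) + B0 + e := add_le_add (add_le_add hCv.le le_rfl) le_rfl
      _ = volume C + (B0 + (e + e)) := by ring
  have hCK : C ⊆ K := hCsub.trans inter_subset_left
  have hCfin : volume C ≠ ⊤ := ((measure_mono hCK).trans_lt (lt_top_iff_ne_top.2 hKfin)).ne
  have hdiff : volume (K \ C) ≤ B0 + ENNReal.ofReal ε := by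
    rw [measure_sdiff hCK hCc.measurableSet.nullMeasurableSet hCfin]
    rw [tsub_le_iff_left]
    exact hKC
  -- finite subcover
  obtain ⟨F, hF, hFc⟩ := hCc.elim_finite_subcover_image (b := GG x j)
    (c := fun u => ball u (δ u)) (fun u _ => isOpen_ball) (hCsub.trans inter_subset_right)
  obtain ⟨hFfin, hFcov⟩ := hFc
  obtain ⟨m, hm0, hm⟩ : ∃ m : ℝ, 0 < m ∧ ∀ u ∈ F, m ≤ t₁ u := by
    rcases F.eq_empty_or_nonempty with h | h
    · exact ⟨1, one_pos, fun u hu => by rw [h] at hu; exact absurd hu (notMem_empty u)⟩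
    · obtain ⟨u, hu, hmin⟩ := hFfin.exists_minimalFor t₁ F h
      refine ⟨t₁ u, ht₁ u (hF hu), fun v hv => ?_⟩
      rcases le_total (t₁ u) (t₁ v) with h' | h'
      · exact h'
      · exact hmin hv h'
  -- the complement of the interior of `K`
  obtain ⟨σ, hσ, Hσ⟩ := opa_compact hOPA x hd hx
    ((fun z : ℂ => (z : OnePoint ℂ)) '' interior K)ᶜ
    (OnePoint.isOpenMap_coe _ isOpen_interior).isClosed_compl.isCompact (by
      intro z hz
      induction z using OnePoint.rec with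
      | infty => exact hinf
      | coe z =>
        have hzi : z ∉ interior K := fun h => hz ⟨z, h, rfl⟩
        apply attd_back hcont
        by_cases hq : (de x).eval z = 0
        · rw [sp_inf x z hq]
          exact hinf
        · rw [sp_fx x z hq]
          apply hKc
          intro h1
          exact hzi (hKint z hq h1))
  set t : ℝ := min (m / 2) (min t₀ (min (σ / (2 * C₀)) (ε / (2 * C₀)))) with ht
  have ht0 : 0 < t := by
    rw [ht]
    refine lt_min (by linarith) (lt_min ht₀ (lt_min (by positivity) (by positivity)))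
  have htm : t < m := by
    have := min_le_left (m / 2) (min t₀ (min (σ / (2 * C₀)) (ε / (2 * C₀))))
    rw [← ht] at this
    linarith
  have htt : t ≤ t₀ := (min_le_right _ _).trans (min_le_left _ _)
  have ht1 : C₀ * t < σ := by
    have h5 : t ≤ σ / (2 * C₀) :=
      (min_le_right _ _).trans ((min_le_right _ _).trans (min_le_left _ _))
    rw [le_div_iff₀ (by positivity)] at h5
    linarith
  have hte : C₀ * t < ε := by
    have h5 : t ≤ ε / (2 * C₀) :=
      (min_le_right _ _).trans ((min_le_right _ _).trans (min_le_right _ _))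
    rw [le_div_iff₀ (by positivity)] at h5
    linarith
  obtain ⟨a1, a2, a3⟩ := hX t ht0.le htt
  refine ⟨X t, a2.trans_lt hte, a1, ?_⟩
  refine (measure_mono ?_).trans hdiff
  intro z hz
  refine ⟨?_, ?_⟩
  · by_contra hzK
    apply hz
    apply Hσ (X t) (a2.trans_lt ht1)
    rintro ⟨w, hw, hwz⟩
    have hwz' : (w : OnePoint ℂ) = (z : OnePoint ℂ) := hwz
    rw [OnePoint.coe_eq_coe] at hwz'
    rw [hwz'] at hw
    exact hzK (interior_subset hw)
  · intro hzC
    apply hz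
    obtain ⟨u, hu, hzu⟩ := mem_iUnion₂.1 (hFcov hzC)
    exact hgood u (hF hu) t ht0 (htm.trans_le (hm u hu)) z hzu

end Pool.Agent.W409.RQAPX
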