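import Pool.Agent.W983.PL.Stm

set_option autoImplicit false
open Set Topology

namespace Pool.Agent.W409.PCD1A

open Pool.Agent.W983.PL

theorem main (hb : S_BC) (hp : S_POS) (ha : S_AR) : S_D1A := by
  intro F g Z η ρ ψ 𝓐 𝓑 hD J hJ s
  obtain ⟨p1, p2, p3, p4, p5, p6, -⟩ := hp F Z η ρ hD.gen.lift hD.cuts
  have hη : Monotone η := (strictMono_nat_of_lt_succ p3).monotone
  have hρ : Antitone ρ := (strictAnti_nat_of_succ_lt p4).antitone
  have hrngA := hD.fa.rng
  have hrngB := hD.fb.rng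
  obtain ⟨k, b⟩ := s
  obtain ⟨a1, a2, a3, a4⟩ :
    (∀ z, z ∈ arc (ρ k - 1) (η k) ↔ g k z ∈ arc (xl F ρ k) (xr F η k)) ∧
    (∀ z, z ∈ arc (η (k + 1)) (ρ (k + 1)) ↔ g k z ∈ arc (al F η k) (ar F ρ k)) ∧
    (∀ z, z ∈ arc (η k) (η (k + 1)) ↔ g k z ∈ arc (xr F η k) (al F η k)) ∧
    (∀ z, z ∈ arc (ρ (k + 1)) (ρ k) ↔ g k z ∈ arc (ar F ρ k) (xl F ρ k + 1)) :=
    ⟨fun z => (ha F g Z η ρ hD.gen hD.cuts k z).1, fun z => (ha F g Z η ρ hD.gen hD.cuts k z).2.1,
      fun z => (ha F g Z η ρ hD.gen hD.cuts k z).2.2.1,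
      fun z => (ha F g Z η ρ hD.gen hD.cuts k z).2.2.2⟩
  cases b with
  | true =>
    -- both end points in one of the two arcs
    have key : (E J.1 ∈ arc (ρ k - 1) (η k) ∧ E J.2 ∈ arc (ρ k - 1) (η k)) ∨
        (E J.1 ∈ arc (η (k + 1)) (ρ (k + 1)) ∧ E J.2 ∈ arc (η (k + 1)) (ρ (k + 1))) := by
      rcases hJ with (⟨j, rfl⟩ | hJ) | hJ
      · by_cases hjk : j ≤ k
        · left
          have h1 := hη hjk
          have h2 := hρ hjk
          refine ⟨⟨η j, ⟨?_, h1⟩, rfl⟩, ⟨ρ j - 1, ⟨by linarith, ?_⟩, ?_⟩⟩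
          · linarith [(p5 j).1, (p6 k).2]
          · linarith [(p5 k).1, (p6 j).2]
          · rw [← E_add_one (ρ j - 1), sub_add_cancel]
        · right
          have hjk' : k + 1 ≤ j := by omega
          have h1 := hη hjk'
          have h2 := hρ hjk'
          refine ⟨⟨η j, ⟨h1, ?_⟩, rfl⟩, ⟨ρ j, ⟨?_, h2⟩, rfl⟩⟩
          · linarith [(p5 j).2, (p6 (k + 1)).1]
          · linarith [(p5 (k + 1)).2, (p6 j).1]
      · left
        obtain ⟨r1, r2, r3, -, -⟩ := hrngA J hJ
        have h1 := hη (Nat.zero_le k)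
        have h2 := hρ (Nat.zero_le k)
        exact ⟨⟨J.1, ⟨by linarith, by linarith⟩, rfl⟩, ⟨J.2, ⟨by linarith, by linarith⟩, rfl⟩⟩
      · right
        obtain ⟨r1, r2, r3, -, -⟩ := hrngB J hJ
        have h1 := (p5 (k + 1)).2
        have h2 := (p6 (k + 1)).1
        exact ⟨⟨J.1, ⟨by linarith, by linarith⟩, rfl⟩, ⟨J.2, ⟨by linarith, by linarith⟩, rfl⟩⟩
    have hlt : ∀ z, lt g (k, true) z = g k z := fun z => rfl
    rw [hlt, hlt]
    unfold PP
    rw [if_pos rfl]
    rcases key with ⟨h1, h2⟩ | ⟨h1, h2⟩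
    · left
      exact ⟨(a1 _).1 h1, (a1 _).1 h2⟩
    · right
      exact ⟨(a2 _).1 h1, (a2 _).1 h2⟩
  | false =>
    have hk := (hb.1 k)
    obtain ⟨c1, c2, c3, c4, c5, c6⟩ := hk
    obtain ⟨x1, x2, x3⟩ := p1 k
    obtain ⟨y1, y2, y3⟩ := p2 k
    -- every end point is in one of the two arcs
    have key0 : ∀ t : ℝ, 7 / 8 - 1 ≤ t → t ≤ 1 / 8 → E t ∈ arc (ar F ρ k) (xl F ρ k + 1) := by
      intro t ht1 ht2
      exact ⟨t + 1, ⟨by linarith, by linarith⟩, E_add_one t⟩
    have key1 : ∀ t : ℝ, 7 / 8 ≤ t → t ≤ 1 → E t ∈ arc (ar F ρ k) (xl F ρ k + 1) := by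
      intro t ht1 ht2
      exact ⟨t, ⟨by linarith, by linarith⟩, rfl⟩
    have key2 : ∀ t : ℝ, 1 / 8 ≤ t → t ≤ 7 / 8 → t ∈ goodB F Z η ρ →
        E t ∈ arc (xr F η k) (al F η k) ∨ E t ∈ arc (ar F ρ k) (xl F ρ k + 1) := by
      intro t ht1 ht2 hg
      obtain ⟨-, hg⟩ := hg
      obtain ⟨g1, g2⟩ := hg k
      rw [Set.mem_Icc, not_and_or, not_le, not_le] at g1 g2
      rcases g1 with g1 | g1
      · right
        exact ⟨t + 1, ⟨by linarith, by linarith⟩, E_add_one t⟩
      · rcases g2 with g2 | g2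
        · left
          exact ⟨t, ⟨by linarith, by linarith⟩, rfl⟩
        · right
          exact ⟨t, ⟨by linarith, by linarith⟩, rfl⟩
    have key : ∀ t : ℝ, (t = J.1 ∨ t = J.2) →
        E t ∈ arc (xr F η k) (al F η k) ∨ E t ∈ arc (ar F ρ k) (xl F ρ k + 1) := by
      intro t ht
      rcases hJ with (⟨j, rfl⟩ | hJ) | hJ
      · rcases ht with rfl | rfl
        · right
          exact key0 _ (by linarith [(p5 j).1]) (by linarith [(p5 j).2])
        · right
          exact key1 _ (by linarith [(p6 j).1]) (by linarith [(p6 j).2])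
      · right
        obtain ⟨r1, r2, r3, -, -⟩ := hrngA J hJ
        have h1 := p5 0
        have h2 := p6 0
        rcases ht with rfl | rfl
        · exact key0 _ (by linarith) (by linarith)
        · exact key0 _ (by linarith) (by linarith)
      · obtain ⟨r1, r2, r3, r4, r5⟩ := hrngB J hJ
        rcases ht with rfl | rfl
        · rcases r4 with r4 | r4
          · right
            exact key0 _ (by linarith) (by linarith)
          · exact key2 _ r1 (by linarith) r4
        · rcases r5 with r5 | r5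
          · right
            exact key1 _ (by linarith) (by linarith)
          · exact key2 _ (by linarith) r3 r5
    have hlt : ∀ z, lt g (k, false) z = (g k)⁻¹ z := fun z => rfl
    have hinv : ∀ z, g k ((g k)⁻¹ z) = z := fun z => (g k).apply_symm_apply z
    rw [hlt, hlt]
    unfold PP
    rw [if_neg (by simp)]
    constructor
    · rcases key J.1 (Or.inl rfl) with h | h
      · left
        exact (a3 _).2 (by rw [hinv]; exact h)
      · right
        exact (a4 _).2 (by rw [hinv]; exact h)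
    · rcases key J.2 (Or.inr rfl) with h | h
      · left
        exact (a3 _).2 (by rw [hinv]; exact h)
      · right
        exact (a4 _).2 (by rw [hinv]; exact h)

end Pool.Agent.W409.PCD1A
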