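import Pool.Agent.W576.Defs

namespace Pool.Agent.W409.Klein

open MeasureTheory Set Pool.Agent.W576

open scoped ENNReal

/-- the vectors `(1,0)`, `(1,x_i)` -/
noncomputable abbrev vv {k : ℕ} (x : Fin (k+1) → Fin (k+1) → ℝ) : Fin (k+2) → Fin (k+2) → ℝ :=
  Fin.cons (Fin.cons 1 0) (fun i => Fin.cons 1 (x i))

theorem det_vv {k : ℕ} (x : Fin (k+1) → Fin (k+1) → ℝ) :
    (Matrix.of (vv x)).det = (Matrix.of (fun i j => x i j)).det := by
  rw [Matrix.det_succ_row_zero, Fin.sum_univ_succ]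
  simp only [Matrix.of_apply, vv, Fin.cons_zero, Fin.cons_succ, Pi.zero_apply, mul_zero, zero_mul,
    Finset.sum_const_zero, add_zero, Fin.val_zero, pow_zero, one_mul]
  congr 1

theorem qf_vv {k : ℕ} (x : Fin (k+1) → Fin (k+1) → ℝ) (s : Fin (k+2) → ℝ) :
    qf (gram (vv x)) s = -(s 0 + ∑ i, s (Fin.succ i)) ^ 2
      + ∑ j, (∑ i, s (Fin.succ i) * x i j) ^ 2 := by
  have key : ∀ i j, gram (vv x) i j = -1 + ∑ l : Fin (k+1), (vv x i (Fin.succ l)) * (vv x j (Fin.succ l)) := by
    intro i j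
    unfold gram lor
    rw [Fin.sum_univ_succ]
    have h0 : ∀ i, vv x i 0 = 1 := by
      intro i; refine Fin.cases ?_ ?_ i <;> simp [vv]
    rw [h0, h0]
    simp [eta]
  unfold qf
  simp_rw [key]
  have h1 : ∑ i, ∑ j, (-1 + ∑ l : Fin (k+1), (vv x i (Fin.succ l)) * (vv x j (Fin.succ l))) * (s i * s j)
      = -(∑ i, s i) ^ 2 + ∑ l : Fin (k+1), (∑ i, s i * vv x i (Fin.succ l)) ^ 2 := by
    have e1 : ∀ i j, (-1 + ∑ l : Fin (k+1), (vv x i (Fin.succ l)) * (vv x j (Fin.succ l))) * (s i * s j)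
      = -(s i * s j) + ∑ l : Fin (k+1), (s i * vv x i (Fin.succ l)) * (s j * vv x j (Fin.succ l)) := by
      intro i j
      rw [add_mul, Finset.sum_mul]
      congr 1
      · ring
      · exact Finset.sum_congr rfl (fun l _ => by ring)
    simp_rw [e1, Finset.sum_add_distrib, Finset.sum_neg_distrib]
    congr 1
    · rw [sq, Finset.sum_mul_sum]
    · simp_rw [sq, Finset.sum_mul_sum]
      symm
      rw [Finset.sum_comm]
      refine Finset.sum_congr rfl (fun i _ => ?_)
      rw [Finset.sum_comm]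
  rw [h1, Fin.sum_univ_succ (f := s)]
  congr 1
  refine Finset.sum_congr rfl (fun l _ => ?_)
  rw [Fin.sum_univ_succ]
  simp [vv]


/-- quadratic part -/
noncomputable def QQ {k : ℕ} (x : Fin (k+1) → Fin (k+1) → ℝ) (s : Fin (k+1) → ℝ) : ℝ :=
  ∑ j, (∑ i, s i * x i j) ^ 2

theorem continuous_QQ {k : ℕ} (x : Fin (k+1) → Fin (k+1) → ℝ) : Continuous (QQ x) := by
  unfold QQ; fun_prop

theorem QQ_smul {k : ℕ} (x : Fin (k+1) → Fin (k+1) → ℝ) (r : ℝ) (s : Fin (k+1) → ℝ) :
    QQ x (r • s) = r ^ 2 * QQ x s := by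
  unfold QQ
  rw [Finset.mul_sum]
  refine Finset.sum_congr rfl (fun j _ => ?_)
  have : ∑ i, (r • s) i * x i j = r * ∑ i, s i * x i j := by
    rw [Finset.mul_sum]
    exact Finset.sum_congr rfl (fun i _ => by simp [mul_assoc])
  rw [this]; ring

/-- half open simplex -/
def DD (k : ℕ) : Set (Fin (k+1) → ℝ) := {s | (∀ i, 0 < s i) ∧ ∑ i, s i ≤ 1}

theorem measurableSet_DD (k : ℕ) : MeasurableSet (DD k) := by
  have h1 : MeasurableSet {s : Fin (k+1) → ℝ | ∀ i, 0 < s i} := by
    rw [Set.ofPred_forall]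
    exact MeasurableSet.iInter (fun i => measurableSet_lt measurable_const (measurable_pi_apply i))
  have h2 : MeasurableSet {s : Fin (k+1) → ℝ | ∑ i, s i ≤ 1} := by
    exact measurableSet_le (by fun_prop) measurable_const
  exact h1.inter h2

theorem QQ_lt_one {k : ℕ} (x : Fin (k+1) → Fin (k+1) → ℝ) (hx : ∀ i, ∑ j, (x i j) ^ 2 < 1)
    (s : Fin (k+1) → ℝ) (h0 : ∀ i, 0 ≤ s i) (h1 : ∑ i, s i ≤ 1) : QQ x s < 1 := by
  have hA : ∀ j, (∑ i, s i * x i j) ^ 2 ≤ ∑ i, s i * (x i j) ^ 2 := by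
    intro j
    have h := Finset.sum_sq_le_sum_mul_sum_of_sq_le_mul (Finset.univ : Finset (Fin (k+1)))
      (f := fun i => s i) (g := fun i => s i * (x i j) ^ 2) (r := fun i => s i * x i j)
      (fun i _ => h0 i) (fun i _ => mul_nonneg (h0 i) (sq_nonneg _)) (fun i _ => le_of_eq (by ring))
    refine h.trans ?_
    have h3 : 0 ≤ ∑ i, s i * (x i j) ^ 2 :=
      Finset.sum_nonneg (fun i _ => mul_nonneg (h0 i) (sq_nonneg _))
    nlinarith
  have hB : QQ x s ≤ ∑ i, s i * ∑ j, (x i j) ^ 2 := by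
    unfold QQ
    refine (Finset.sum_le_sum (fun j _ => hA j)).trans ?_
    rw [Finset.sum_comm]
    exact le_of_eq (Finset.sum_congr rfl (fun i _ => by rw [Finset.mul_sum]))
  by_cases hz : ∀ i, s i = 0
  · have : QQ x s = 0 := by
      unfold QQ; simp [hz]
    rw [this]; norm_num
  · push Not at hz
    obtain ⟨i0, hi0⟩ := hz
    have hlt : ∑ i, s i * ∑ j, (x i j) ^ 2 < ∑ i, s i := by
      refine Finset.sum_lt_sum (fun i _ => ?_) ⟨i0, Finset.mem_univ _, ?_⟩
      · nlinarith [h0 i, hx i]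
      · have : 0 < s i0 := lt_of_le_of_ne (h0 i0) (Ne.symm hi0)
        nlinarith [hx i0]
    linarith

theorem inner_integral (k : ℕ) {c : ℝ} (hc : 0 < c) :
    ∫⁻ r in Ioi (0:ℝ), ENNReal.ofReal (r ^ (k+1) * Real.exp (-c * r ^ 2))
      = ENNReal.ofReal (c ^ (-((k : ℝ) + 2) / 2)) * ENNReal.ofReal (1 / 2 * Real.Gamma (((k:ℝ) + 2) / 2)) := by
  have hint : IntegrableOn (fun r : ℝ => r ^ (k+1) * Real.exp (-c * r ^ 2)) (Ioi 0) := by
    have := integrableOn_rpow_mul_exp_neg_mul_sq hc (s := ((k:ℝ) + 1)) (by positivity |> fun h : (0:ℝ) < (k:ℝ) + 1 => by linarith)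
    refine this.congr_fun (fun r hr => ?_) measurableSet_Ioi
    show r ^ ((k:ℝ) + 1) * Real.exp (-c * r ^ 2) = _
    rw [← Nat.cast_succ, Real.rpow_natCast]
  rw [← ofReal_integral_eq_lintegral_ofReal hint]
  · rw [← ENNReal.ofReal_mul (by positivity)]
    congr 1
    have := integral_rpow_mul_exp_neg_mul_rpow (p := 2) (q := (k:ℝ) + 1) (b := c) two_pos
      (by positivity |> fun h : (0:ℝ) < (k:ℝ) + 1 => by linarith) hc
    rw [show -((k:ℝ) + 2) / 2 = -((k:ℝ) + 1 + 1) / 2 by ring, show ((k:ℝ) + 2) / 2 = ((k:ℝ) + 1 + 1) / 2 by ring,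
      ← mul_assoc, ← this]
    refine setIntegral_congr_fun measurableSet_Ioi (fun r hr => ?_)
    show r ^ (k + 1) * Real.exp (-c * r ^ 2) = r ^ ((k:ℝ) + 1) * Real.exp (-c * r ^ (2:ℝ))
    rw [← Nat.cast_succ, Real.rpow_natCast, Real.rpow_two]
  · refine (ae_restrict_iff' measurableSet_Ioi).2 (Filter.Eventually.of_forall (fun r hr => ?_))
    have : (0:ℝ) < r := hr
    positivity


/-- the integrand after the shift -/
noncomputable def kk {k : ℕ} (x : Fin (k+1) → Fin (k+1) → ℝ) (s : Fin (k+1) → ℝ) (r : ℝ) : ℝ≥0∞ :=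
  {p : (Fin (k+1) → ℝ) × ℝ | (∀ i, 0 < p.1 i) ∧ ∑ i, p.1 i ≤ p.2}.indicator
    (fun p => ENNReal.ofReal (Real.exp (-p.2 ^ 2 + QQ x p.1))) (s, r)

theorem measurable_kk {k : ℕ} (x : Fin (k+1) → Fin (k+1) → ℝ) :
    Measurable (Function.uncurry (kk x)) := by
  have h1 : MeasurableSet {p : (Fin (k+1) → ℝ) × ℝ | ∀ i, 0 < p.1 i} := by
    rw [Set.ofPred_forall]
    exact MeasurableSet.iInter (fun i => measurableSet_lt measurable_const (by fun_prop))
  have h2 : MeasurableSet {p : (Fin (k+1) → ℝ) × ℝ | ∑ i, p.1 i ≤ p.2} := by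
    exact measurableSet_le (by fun_prop) (by fun_prop)
  have h3 : Measurable (fun p : (Fin (k+1) → ℝ) × ℝ =>
      ENNReal.ofReal (Real.exp (-p.2 ^ 2 + QQ x p.1))) := by
    have := (continuous_QQ x)
    fun_prop
  exact h3.indicator (h1.inter h2)

theorem orth_lintegral {k : ℕ} (x : Fin (k+1) → Fin (k+1) → ℝ) :
    ∫⁻ s in orth (Fin (k+2)), ENNReal.ofReal (Real.exp (qf (gram (vv x)) s))
      = ∫⁻ s, ∫⁻ r, kk x s r := by
  classical
  have hmo : MeasurableSet (orth (Fin (k+2))) := by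
    unfold orth
    rw [Set.ofPred_forall]
    exact MeasurableSet.iInter (fun i => measurableSet_lt measurable_const (by fun_prop))
  have hmf : Measurable (fun s : Fin (k+2) → ℝ => ENNReal.ofReal (Real.exp (qf (gram (vv x)) s))) := by
    unfold qf; fun_prop
  rw [← lintegral_indicator hmo]
  have hmp := (volume_preserving_piFinSuccAbove (fun _ : Fin (k+2) => ℝ) 0).symm
  have hcomp : Measurable (fun p : ℝ × (Fin (k+1) → ℝ) => (orth (Fin (k+2))).indicator
      (fun s => ENNReal.ofReal (Real.exp (qf (gram (vv x)) s)))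
        ((MeasurableEquiv.piFinSuccAbove (fun _ : Fin (k+2) => ℝ) 0).symm p)) :=
    (hmf.indicator hmo).comp hmp.measurable
  rw [← hmp.lintegral_comp (hmf.indicator hmo), Measure.volume_eq_prod,
    lintegral_prod_symm _ hcomp.aemeasurable]
  refine lintegral_congr (fun s => ?_)
  have e1 : ∀ r, ((orth (Fin (k+2))).indicator
      (fun s => ENNReal.ofReal (Real.exp (qf (gram (vv x)) s)))
        ((MeasurableEquiv.piFinSuccAbove (fun _ : Fin (k+2) => ℝ) 0).symm (r, s)))
      = (fun t => if (∀ i, 0 < s i) ∧ ∑ i, s i < t then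
          ENNReal.ofReal (Real.exp (- t ^ 2 + QQ x s)) else 0) (r + ∑ i, s i) := by
    intro r
    have e2 : (MeasurableEquiv.piFinSuccAbove (fun _ : Fin (k+2) => ℝ) 0).symm (r, s)
        = (Fin.cons r s : Fin (k+2) → ℝ) := by
      simp [MeasurableEquiv.piFinSuccAbove, Fin.insertNthEquiv]
    rw [e2, Set.indicator_apply]
    have e3 : (Fin.cons r s : Fin (k+2) → ℝ) ∈ orth (Fin (k+2)) ↔ (∀ i, 0 < s i) ∧ ∑ i, s i < r + ∑ i, s i := by
      unfold orth
      simp only [Set.mem_ofPred_eq, Fin.forall_fin_succ (n := k+1), Fin.cons_zero, Fin.cons_succ]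
      constructor
      · rintro ⟨h1, h2⟩; exact ⟨h2, by linarith⟩
      · rintro ⟨h1, h2⟩; exact ⟨by linarith, h1⟩
    have e4 : qf (gram (vv x)) (Fin.cons r s) = -(r + ∑ i, s i) ^ 2 + QQ x s := by
      rw [qf_vv]; simp [QQ]
    simp only [e3, e4]
  simp_rw [e1]
  rw [lintegral_add_right_eq_self (fun t => if (∀ i, 0 < s i) ∧ ∑ i, s i < t then
          ENNReal.ofReal (Real.exp (- t ^ 2 + QQ x s)) else 0) (∑ i, s i)]
  refine lintegral_congr_ae ?_
  have hne : ∀ᵐ r : ℝ, r ≠ ∑ i, s i := by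
    exact (Measure.ae_ne volume (∑ i, s i))
  filter_upwards [hne] with r hr
  unfold kk
  rw [Set.indicator_apply]
  have : ((∀ i, 0 < s i) ∧ ∑ i, s i < r) ↔ (s, r) ∈ {p : (Fin (k+1) → ℝ) × ℝ | (∀ i, 0 < p.1 i) ∧ ∑ i, p.1 i ≤ p.2} := by
    simp only [Set.mem_ofPred_eq]
    exact and_congr_right (fun _ => ⟨le_of_lt, fun h => lt_of_le_of_ne h (Ne.symm hr)⟩)
  simp only [this]


theorem kk_lintegral {k : ℕ} (x : Fin (k+1) → Fin (k+1) → ℝ) (hx : ∀ i, ∑ j, (x i j) ^ 2 < 1) :
    ∫⁻ s, ∫⁻ r, kk x s r = (∫⁻ s in DD k, ENNReal.ofReal ((1 - QQ x s) ^ (-((k : ℝ) + 2) / 2)))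
      * ENNReal.ofReal (1 / 2 * Real.Gamma (((k:ℝ) + 2) / 2)) := by
  classical
  rw [lintegral_lintegral_swap (measurable_kk x).aemeasurable]
  have hpos : ∀ r : ℝ, 0 < r → ∫⁻ s, kk x s r
      = ∫⁻ s in DD k, ENNReal.ofReal (r ^ (k+1) * Real.exp (-(1 - QQ x s) * r ^ 2)) := by
    intro r hr
    have hm : Measurable (fun s => kk x s r) :=
      (measurable_kk x).comp (measurable_id.prodMk measurable_const)
    have h1 := lintegral_map (μ := (volume : Measure (Fin (k+1) → ℝ))) hm (measurable_const_smul r)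
    rw [Measure.map_addHaar_smul _ hr.ne', lintegral_smul_measure] at h1
    simp only [Module.finrank_fintype_fun_eq_card, Fintype.card_fin] at h1
    have h2 : ∫⁻ s, kk x s r = ENNReal.ofReal (r ^ (k+1)) * ∫⁻ s, kk x (r • s) r := by
      rw [← h1, smul_eq_mul, ← mul_assoc, ← ENNReal.ofReal_mul (by positivity),
        abs_of_pos (by positivity), mul_inv_cancel₀ (by positivity), ENNReal.ofReal_one, one_mul]
    have hm' : Measurable (fun s => kk x (r • s) r) := hm.comp (measurable_const_smul r)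
    rw [h2, ← lintegral_const_mul _ hm', ← lintegral_indicator (measurableSet_DD k)]
    refine lintegral_congr (fun s => ?_)
    unfold kk
    rw [Set.indicator_apply, Set.indicator_apply]
    have e : ((r • s, r) ∈ {p : (Fin (k+1) → ℝ) × ℝ | (∀ i, 0 < p.1 i) ∧ ∑ i, p.1 i ≤ p.2})
        ↔ s ∈ DD k := by
      unfold DD
      simp only [Set.mem_ofPred_eq, Pi.smul_apply, smul_eq_mul, ← Finset.mul_sum]
      constructor
      · rintro ⟨h1, h2⟩
        exact ⟨fun i => (mul_pos_iff_of_pos_left hr).1 (h1 i), by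
          by_contra hcon
          push Not at hcon
          nlinarith⟩
      · rintro ⟨h1, h2⟩
        exact ⟨fun i => mul_pos hr (h1 i), by nlinarith⟩
    simp only [e, QQ_smul]
    split_ifs
    · rw [← ENNReal.ofReal_mul (by positivity)]
      congr 3
      ring
    · simp
  have hneg : ∀ r : ℝ, ¬ 0 < r → ∫⁻ s, kk x s r = 0 := by
    intro r hr
    rw [← lintegral_zero (μ := (volume : Measure (Fin (k+1) → ℝ)))]
    refine lintegral_congr (fun s => ?_)
    unfold kk
    rw [Set.indicator_apply, if_neg]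
    rintro ⟨h1, h2⟩
    exact hr (lt_of_lt_of_le (Finset.sum_pos (fun i _ => h1 i) Finset.univ_nonempty) h2)
  have h3 : ∫⁻ r, ∫⁻ s, kk x s r = ∫⁻ r in Ioi (0:ℝ), ∫⁻ s in DD k,
      ENNReal.ofReal (r ^ (k+1) * Real.exp (-(1 - QQ x s) * r ^ 2)) := by
    rw [← lintegral_indicator measurableSet_Ioi]
    refine lintegral_congr (fun r => ?_)
    rw [Set.indicator_apply]
    split_ifs with h
    · exact hpos r h
    · exact hneg r h
  rw [h3, lintegral_lintegral_swap]
  · have hm2 : Measurable (fun s => ENNReal.ofReal ((1 - QQ x s) ^ (-((k : ℝ) + 2) / 2))) := by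
      have := (continuous_QQ x).measurable
      fun_prop
    rw [← lintegral_mul_const _ hm2]
    refine setLIntegral_congr_fun (measurableSet_DD k) (fun s hs => ?_)
    exact inner_integral k (by linarith [QQ_lt_one x hx s (fun i => (hs.1 i).le) hs.2])
  · have := (continuous_QQ x).measurable
    refine Measurable.aemeasurable ?_
    unfold Function.uncurry
    have h4 : Measurable (fun a : ℝ × (Fin (k+1) → ℝ) => QQ x a.2) := this.comp measurable_snd
    fun_prop


theorem I0_vv {k : ℕ} (x : Fin (k+1) → Fin (k+1) → ℝ) (hx : ∀ i, ∑ j, (x i j) ^ 2 < 1) :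
    I0 (gram (vv x)) = (∫⁻ s in DD k, ENNReal.ofReal ((1 - QQ x s) ^ (-((k : ℝ) + 2) / 2))).toReal
      * (1 / 2 * Real.Gamma (((k:ℝ) + 2) / 2)) := by
  have hG : 0 < Real.Gamma (((k:ℝ) + 2) / 2) := Real.Gamma_pos_of_pos (by positivity)
  unfold I0
  rw [integral_eq_lintegral_of_nonneg_ae (Filter.Eventually.of_forall (fun s => (Real.exp_pos _).le)),
    orth_lintegral, kk_lintegral x hx, ENNReal.toReal_mul, ENNReal.toReal_ofReal (by positivity)]
  refine Measurable.aestronglyMeasurable ?_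
  unfold qf; fun_prop

/-- closed simplex -/
def CC (k : ℕ) : Set (Fin (k+1) → ℝ) := {s | (∀ i, 0 ≤ s i) ∧ ∑ i, s i ≤ 1}

theorem measurableSet_CC (k : ℕ) : MeasurableSet (CC k) := by
  have h1 : MeasurableSet {s : Fin (k+1) → ℝ | ∀ i, 0 ≤ s i} := by
    rw [Set.ofPred_forall]
    exact MeasurableSet.iInter (fun i => measurableSet_le measurable_const (measurable_pi_apply i))
  have h2 : MeasurableSet {s : Fin (k+1) → ℝ | ∑ i, s i ≤ 1} := by
    exact measurableSet_le (by fun_prop) measurable_const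
  exact h1.inter h2

theorem CC_ae (k : ℕ) : CC k =ᵐ[volume] DD k := by
  have h : ∀ᵐ s : Fin (k+1) → ℝ, ∀ i, s i ≠ 0 := by
    rw [ae_all_iff]
    intro i
    exact Measure.ae_eval_ne _ i 0
  filter_upwards [h] with s hs
  apply propext
  show ((∀ i, 0 ≤ s i) ∧ ∑ i, s i ≤ 1) ↔ ((∀ i, 0 < s i) ∧ ∑ i, s i ≤ 1)
  exact and_congr_left (fun _ => forall_congr' (fun i => ⟨fun h => lt_of_le_of_ne h (Ne.symm (hs i)), le_of_lt⟩))

theorem hull_eq {k : ℕ} (x : Fin (k+1) → Fin (k+1) → ℝ) :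
    convexHull ℝ (insert 0 (Set.range (fun i => x i)))
      = (Matrix.toLin' (Matrix.of x).transpose) '' CC k := by
  classical
  have h1 : insert 0 (Set.range (fun i => x i)) = (Matrix.toLin' (Matrix.of x).transpose) ''
      (insert 0 (Set.range (fun i : Fin (k+1) => (Pi.single i (1:ℝ) : Fin (k+1) → ℝ)))) := by
    rw [Set.image_insert_eq, map_zero, ← Set.range_comp]
    congr 1
    refine congrArg Set.range ?_
    funext i
    simp only [Function.comp]
    rw [Matrix.toLin'_apply, Matrix.mulVec_single_one]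
    rfl
  rw [h1, ← LinearMap.image_convexHull]
  congr 1
  apply Set.Subset.antisymm
  · apply convexHull_min
    · intro s hs
      rcases hs with rfl | ⟨i, rfl⟩
      · exact ⟨fun i => le_rfl, by simp⟩
      · refine ⟨fun j => ?_, by simp⟩
        simp only [Pi.single_apply]
        split_ifs <;> norm_num
    · intro s hs t ht a b ha hb hab
      refine ⟨fun i => ?_, ?_⟩
      · simp only [Pi.add_apply, Pi.smul_apply, smul_eq_mul]
        have := hs.1 i; have := ht.1 i; positivity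
      · simp only [Pi.add_apply, Pi.smul_apply, smul_eq_mul, Finset.sum_add_distrib, ← Finset.mul_sum]
        nlinarith [hs.2, ht.2]
  · intro s hs
    have hc := convex_convexHull ℝ (insert 0 (Set.range (fun i : Fin (k+1) => (Pi.single i (1:ℝ) : Fin (k+1) → ℝ))))
    have := hc.sum_mem (t := (Finset.univ : Finset (Fin (k+2))))
      (w := Fin.cons (1 - ∑ i, s i) s)
      (z := Fin.cons 0 (fun i : Fin (k+1) => (Pi.single i (1:ℝ) : Fin (k+1) → ℝ)))
      (by
        intro i _
        refine Fin.cases ?_ ?_ i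
        · simp only [Fin.cons_zero]; linarith [hs.2]
        · intro j; simp only [Fin.cons_succ]; exact hs.1 j)
      (by rw [Fin.sum_univ_succ]; simp)
      (by
        intro i _
        refine Fin.cases ?_ ?_ i
        · simp only [Fin.cons_zero]; exact subset_convexHull ℝ _ (Set.mem_insert _ _)
        · intro j; simp only [Fin.cons_succ]
          exact subset_convexHull ℝ _ (Set.mem_insert_of_mem _ ⟨j, rfl⟩))
    rw [Fin.sum_univ_succ] at this
    simp only [Fin.cons_zero, Fin.cons_succ, smul_zero, zero_add] at this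
    convert this using 1
    funext j
    simp [Finset.sum_apply, Pi.single_apply]

theorem vol_eq {k : ℕ} (x : Fin (k+1) → Fin (k+1) → ℝ)
    (hd : Matrix.det (Matrix.of (fun i j => x i j)) ≠ 0) :
    (MeasureTheory.Measure.withDensity MeasureTheory.volume
        (fun y : Fin (k+1) → ℝ => ENNReal.ofReal ((1 - ∑ j, (y j) ^ 2) ^ (-((k : ℝ) + 2) / 2))))
        (convexHull ℝ (insert 0 (Set.range (fun i => x i))))
      = ENNReal.ofReal |Matrix.det (Matrix.of (fun i j => x i j))| *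
        ∫⁻ s in DD k, ENNReal.ofReal ((1 - QQ x s) ^ (-((k : ℝ) + 2) / 2)) := by
  rw [withDensity_apply', hull_eq]
  set L := LinearMap.toContinuousLinearMap (Matrix.toLin' (Matrix.of x).transpose) with hL
  have hdet : L.det = Matrix.det (Matrix.of (fun i j => x i j)) := by
    rw [hL]
    show LinearMap.det (Matrix.toLin' (Matrix.of x).transpose) = _
    rw [LinearMap.det_toLin', Matrix.det_transpose]
  have hinj : Function.Injective L := by
    have : LinearMap.det (Matrix.toLin' (Matrix.of x).transpose) ≠ 0 := by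
      rw [LinearMap.det_toLin', Matrix.det_transpose]; exact hd
    exact (LinearMap.equivOfDetNeZero (Matrix.toLin' (Matrix.of x).transpose) this).injective
  have h := lintegral_image_eq_lintegral_abs_det_fderiv_mul (volume : Measure (Fin (k+1) → ℝ))
    (f := L) (f' := fun _ => L) (measurableSet_CC k)
    (fun s _ => L.hasFDerivWithinAt) hinj.injOn
    (fun y : Fin (k+1) → ℝ => ENNReal.ofReal ((1 - ∑ j, (y j) ^ 2) ^ (-((k : ℝ) + 2) / 2)))
  have h' : ∫⁻ y in (Matrix.toLin' (Matrix.of x).transpose) '' CC k,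
      ENNReal.ofReal ((1 - ∑ j, (y j) ^ 2) ^ (-((k : ℝ) + 2) / 2))
      = ∫⁻ s in CC k, ENNReal.ofReal |L.det| * ENNReal.ofReal ((1 - ∑ j, (L s j) ^ 2) ^ (-((k : ℝ) + 2) / 2)) := h
  have e : ∀ s, 1 - ∑ j, (L s j) ^ 2 = 1 - QQ x s := by
    intro s
    unfold QQ
    have : ∀ j, L s j = ∑ i, s i * x i j := by
      intro j
      rw [hL]
      simp only [LinearMap.coe_toContinuousLinearMap', Matrix.toLin'_apply, Matrix.mulVec, dotProduct,
        Matrix.transpose_apply, Matrix.of_apply]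
      exact Finset.sum_congr rfl (fun i _ => mul_comm _ _)
    simp_rw [this]
  simp_rw [e] at h'
  rw [h', hdet, setLIntegral_congr (CC_ae k), lintegral_const_mul]
  have := (continuous_QQ x).measurable
  fun_prop

theorem klein_volume (k : ℕ) : ∃ C : ℝ, ∀ x : Fin (k+1) → Fin (k+1) → ℝ,
    (∀ i, ∑ j, (x i j) ^ 2 < 1) →
    Real.sign (Matrix.det (Matrix.of (fun i j => x i j))) *
      ((MeasureTheory.Measure.withDensity MeasureTheory.volume
        (fun y : Fin (k+1) → ℝ => ENNReal.ofReal ((1 - ∑ j, (y j) ^ 2) ^ (-((k : ℝ) + 2) / 2))))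
        (convexHull ℝ (insert 0 (Set.range (fun i => x i))))).toReal
    = C * SV (Fin.cons (Fin.cons 1 0) (fun i => Fin.cons 1 (x i)) : Fin (k+2) → Fin (k+2) → ℝ) := by
  have hG : 0 < Real.Gamma (((k:ℝ) + 2) / 2) := Real.Gamma_pos_of_pos (by positivity)
  refine ⟨(1 / 2 * Real.Gamma (((k:ℝ) + 2) / 2))⁻¹, fun x hx => ?_⟩
  unfold SV
  have h1 := det_vv x
  have h2 := I0_vv x hx
  unfold vv at h1 h2
  rw [h1, h2]
  by_cases hd : Matrix.det (Matrix.of (fun i j => x i j)) = 0
  · rw [hd]; simp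
  rw [vol_eq x hd, ENNReal.toReal_mul, ENNReal.toReal_ofReal (abs_nonneg _)]
  have h3 : Real.sign (Matrix.det (Matrix.of (fun i j => x i j))) * |Matrix.det (Matrix.of (fun i j => x i j))|
      = Matrix.det (Matrix.of (fun i j => x i j)) := by
    rcases lt_or_gt_of_ne hd with h | h
    · rw [Real.sign_of_neg h, abs_of_neg h]; ring
    · rw [Real.sign_of_pos h, abs_of_pos h]; ring
  rw [← mul_assoc, h3]
  field_simp

end Pool.Agent.W409.Klein
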