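import Pool.Agent.W868.FI.Stms

set_option autoImplicit false

namespace Pool.Agent.W409.FIReal

open Finset

theorem greedy {B Z₁ Z₂ : Type} [Fintype B] [Fintype Z₁] [Fintype Z₂] [Nonempty Z₂]
    [DecidableEq Z₁] [DecidableEq Z₂] (w : B → ℝ) (hw : ∀ b, 0 ≤ w b)
    (κ : ℝ) (hκ0 : 0 ≤ κ) (hκ : ∀ b, w b ≤ κ) (z : B → Z₁) (J : Z₁ × Z₂ → ℝ) (hJ : ∀ q, 0 ≤ J q)
    (hs : ∀ z₁, ∑ z₂, J (z₁, z₂) = ∑ b, if z b = z₁ then w b else 0) (s : Finset B) :
    ∃ ψ : B → Z₂, ∀ q : Z₁ × Z₂, (∑ b ∈ s, if (z b, ψ b) = q then w b else 0) ≤ J q + κ := by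
  classical
  induction s using Finset.induction_on with
  | empty =>
    obtain ⟨z0⟩ := (inferInstance : Nonempty Z₂)
    refine ⟨fun _ => z0, fun q => ?_⟩
    rw [Finset.sum_empty]
    exact add_nonneg (hJ q) hκ0
  | insert b s hb ih =>
    obtain ⟨ψ, hψ⟩ := ih
    have key : ∀ (z₂ : Z₂) (q : Z₁ × Z₂),
        (∑ c ∈ insert b s, if (z c, Function.update ψ b z₂ c) = q then w c else 0) =
          (if (z b, z₂) = q then w b else 0) + ∑ c ∈ s, if (z c, ψ c) = q then w c else 0 := by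
      intro z₂ q
      rw [Finset.sum_insert hb, Function.update_self]
      congr 1
      refine Finset.sum_congr rfl fun c hc => ?_
      have hcb : c ≠ b := by
        rintro rfl
        exact hb hc
      rw [Function.update_of_ne hcb]
    by_cases hwb : w b = 0
    · obtain ⟨z0⟩ := (inferInstance : Nonempty Z₂)
      refine ⟨Function.update ψ b z0, fun q => ?_⟩
      rw [key, hwb, ite_self, zero_add]
      exact hψ q
    · have hpos : 0 < w b := lt_of_le_of_ne (hw b) (Ne.symm hwb)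
      have hex : ∃ z₂, (∑ c ∈ s, if (z c, ψ c) = (z b, z₂) then w c else 0) < J (z b, z₂) := by
        by_contra hno
        push Not at hno
        have h1 : ∑ z₂, J (z b, z₂) ≤
            ∑ z₂, ∑ c ∈ s, if (z c, ψ c) = (z b, z₂) then w c else 0 :=
          Finset.sum_le_sum fun z₂ _ => hno z₂
        have h2 : (∑ z₂, ∑ c ∈ s, if (z c, ψ c) = (z b, z₂) then w c else 0) =
            ∑ c ∈ s, if z c = z b then w c else 0 := by
          rw [Finset.sum_comm]
          refine Finset.sum_congr rfl fun c _ => ?_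
          by_cases hc : z c = z b
          · rw [if_pos hc, Finset.sum_eq_single (ψ c)]
            · rw [if_pos (by rw [hc])]
            · intro y _ hy
              rw [if_neg]
              intro h
              exact hy (Prod.ext_iff.1 h).2.symm
            · intro h
              exact absurd (Finset.mem_univ _) h
          · rw [if_neg hc]
            refine Finset.sum_eq_zero fun y _ => ?_
            rw [if_neg]
            intro h
            exact hc (Prod.ext_iff.1 h).1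
        have h3 : (∑ c ∈ insert b s, if z c = z b then w c else 0) ≤
            ∑ c, if z c = z b then w c else 0 := by
          refine Finset.sum_le_sum_of_subset_of_nonneg (Finset.subset_univ _) fun c _ _ => ?_
          split_ifs
          · exact hw c
          · exact le_rfl
        rw [Finset.sum_insert hb, if_pos rfl] at h3
        rw [hs (z b), h2] at h1
        linarith
      obtain ⟨z₂, hz₂⟩ := hex
      refine ⟨Function.update ψ b z₂, fun q => ?_⟩
      rw [key]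
      by_cases hq : (z b, z₂) = q
      · rw [if_pos hq]
        subst hq
        linarith [hκ b]
      · rw [if_neg hq, zero_add]
        exact hψ q

theorem real0 (B Z₁ Z₂ : Type) [Fintype B] [Fintype Z₁] [Fintype Z₂] [Nonempty Z₂]
    [DecidableEq Z₁] [DecidableEq Z₂] (w : B → ℝ) (hw : ∀ b, 0 ≤ w b)
    (κ : ℝ) (hκ0 : 0 ≤ κ) (hκ : ∀ b, w b ≤ κ) (z : B → Z₁) (J : Z₁ × Z₂ → ℝ) (hJ : ∀ q, 0 ≤ J q)
    (hs : ∀ z₁, ∑ z₂, J (z₁, z₂) = ∑ b, if z b = z₁ then w b else 0) :
    ∃ ψ : B → Z₂, ∀ R : Finset (Z₁ × Z₂),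
      |(∑ b, if (z b, ψ b) ∈ R then w b else 0) - ∑ q ∈ R, J q| ≤
        κ * Fintype.card Z₁ * Fintype.card Z₂ := by
  classical
  obtain ⟨ψ, hψ⟩ := greedy w hw κ hκ0 hκ z J hJ hs Finset.univ
  refine ⟨ψ, ?_⟩
  have hload : ∀ R : Finset (Z₁ × Z₂), (∑ b, if (z b, ψ b) ∈ R then w b else 0) =
      ∑ q ∈ R, ∑ b, if (z b, ψ b) = q then w b else 0 := by
    intro R
    rw [Finset.sum_comm]
    refine Finset.sum_congr rfl fun b _ => ?_
    rw [Finset.sum_ite_eq]
  have hup : ∀ R : Finset (Z₁ × Z₂), (∑ b, if (z b, ψ b) ∈ R then w b else 0) - ∑ q ∈ R, J q ≤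
      κ * Fintype.card Z₁ * Fintype.card Z₂ := by
    intro R
    rw [hload R, ← Finset.sum_sub_distrib]
    calc (∑ q ∈ R, ((∑ b, if (z b, ψ b) = q then w b else 0) - J q)) ≤ ∑ q ∈ R, κ :=
          Finset.sum_le_sum fun q _ => by linarith [hψ q]
      _ = R.card * κ := by rw [Finset.sum_const, nsmul_eq_mul]
      _ ≤ (Fintype.card (Z₁ × Z₂)) * κ := by
          refine mul_le_mul_of_nonneg_right ?_ hκ0
          exact_mod_cast Finset.card_le_univ R
      _ = κ * Fintype.card Z₁ * Fintype.card Z₂ := by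
          rw [Fintype.card_prod]; push_cast; ring
  have htot : (∑ b, w b) = ∑ q, J q := by
    rw [Fintype.sum_prod_type]
    rw [Finset.sum_congr rfl fun z₁ _ => hs z₁, Finset.sum_comm]
    refine Finset.sum_congr rfl fun b _ => ?_
    rw [Finset.sum_ite_eq, if_pos (Finset.mem_univ _)]
  intro R
  rw [abs_le]
  refine ⟨?_, hup R⟩
  have h1 := hup Rᶜ
  have h2 : (∑ b, if (z b, ψ b) ∈ R then w b else 0) +
      (∑ b, if (z b, ψ b) ∈ Rᶜ then w b else 0) = ∑ b, w b := by
    rw [← Finset.sum_add_distrib]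
    refine Finset.sum_congr rfl fun b _ => ?_
    by_cases h : (z b, ψ b) ∈ R
    · rw [if_pos h, if_neg (by simpa using h), add_zero]
    · rw [if_neg h, if_pos (by simpa using h), zero_add]
  have h3 : (∑ q ∈ R, J q) + ∑ q ∈ Rᶜ, J q = ∑ q, J q := Finset.sum_add_sum_compl R J
  linarith

theorem realN (B Z₁ Z₂ : Type) [Nonempty B] [Fintype B] [Fintype Z₁] [Fintype Z₂] [Nonempty Z₂]
    [DecidableEq Z₁] [DecidableEq Z₂] (w : B → ℝ) (hw : ∀ b, 0 ≤ w b)
    (κ : ℝ) (hκ : ∀ b, w b ≤ κ) (z : B → Z₁) (J : Z₁ × Z₂ → ℝ) (hJ : ∀ q, 0 ≤ J q)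
    (hs : ∀ z₁, ∑ z₂, J (z₁, z₂) = ∑ b, if z b = z₁ then w b else 0) :
    ∃ ψ : B → Z₂, ∀ R : Finset (Z₁ × Z₂),
      |(∑ b, if (z b, ψ b) ∈ R then w b else 0) - ∑ q ∈ R, J q| ≤
        κ * Fintype.card Z₁ * Fintype.card Z₂ := by
  obtain ⟨b0⟩ := (inferInstance : Nonempty B)
  exact real0 B Z₁ Z₂ w hw κ ((hw b0).trans (hκ b0)) hκ z J hJ hs

end Pool.Agent.W409.FIReal
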